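import Pool.Agent.H57.UGB.Defs

/-!
# Change of charts: the homogenisation of a function on the space of jets
-/

set_option autoImplicit false

open MvPolynomial

namespace Pool.Agent.H57.UGB

namespace HomAux

/-- `y_i(0)^{s+1} u_{j,s}` is a polynomial in the Taylor coefficients of `y`. -/
theorem exists_W (n k : ℕ) (i : Fin (n + 2)) : ∀ s ≤ k, ∀ j : Fin (n + 2), ∃ W : JR n k,
    ∀ (R : Type) [CommRing R] [Algebra ℂ R] (a : (Fin (n + 2) →₀ ℕ) → R) (y u : Fin (n + 2) → PowerSeries R),
      (∀ j, u j * y i = y j) →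
      pt a y W = PowerSeries.constantCoeff (y i) ^ (s + 1) * PowerSeries.coeff s (u j) := by
  intro s
  induction s using Nat.strong_induction_on with
  | _ s ih =>
    intro hs j
    have h : ∀ r : Fin s, ∃ W : JR n k, ∀ (R : Type) [CommRing R] [Algebra ℂ R]
        (a : (Fin (n + 2) →₀ ℕ) → R) (y u : Fin (n + 2) → PowerSeries R), (∀ j, u j * y i = y j) →
        pt a y W = PowerSeries.constantCoeff (y i) ^ ((r : ℕ) + 1) * PowerSeries.coeff (r : ℕ) (u j) := fun r =>
      ih r r.2 (r.2.le.trans hs) j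
    choose W hW using h
    refine ⟨X (Sum.inr (i, 0)) ^ s * X (Sum.inr (j, ⟨s, Nat.lt_succ_of_le hs⟩)) -
      ∑ r : Fin s, W r * (X (Sum.inr (i, 0)) ^ (s - 1 - r) * X (Sum.inr (i, ⟨s - r, by omega⟩))), ?_⟩
    intro R _ _ a y u hu
    have h1 : PowerSeries.coeff s (y j) = ∑ r ∈ Finset.range (s + 1),
        PowerSeries.coeff r (u j) * PowerSeries.coeff (s - r) (y i) := by
      rw [← hu j, PowerSeries.coeff_mul, Finset.Nat.sum_antidiagonal_eq_sum_range_succ
        (fun p q => PowerSeries.coeff p (u j) * PowerSeries.coeff q (y i))]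
    rw [Finset.sum_range_succ, Nat.sub_self, PowerSeries.coeff_zero_eq_constantCoeff_apply] at h1
    rw [map_sub, map_mul, map_pow, map_sum]
    have h2 : ∀ r : Fin s, pt a y (W r * (X (Sum.inr (i, 0)) ^ (s - 1 - r) *
        X (Sum.inr (i, ⟨s - r, by omega⟩)))) = PowerSeries.constantCoeff (y i) ^ s *
          (PowerSeries.coeff (r : ℕ) (u j) * PowerSeries.coeff (s - r) (y i)) := by
      intro r
      have h3 : ((r : ℕ) + 1) + (s - 1 - r) = s := by have := r.2; omega
      have h5 : PowerSeries.constantCoeff (y i) ^ s = PowerSeries.constantCoeff (y i) ^ ((r : ℕ) + 1) *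
          PowerSeries.constantCoeff (y i) ^ (s - 1 - (r : ℕ)) := by rw [← pow_add, h3]
      rw [map_mul, map_mul, map_pow, hW r R a y u hu]
      simp only [pt, aeval_X, Sum.elim_inr, Fin.val_zero, PowerSeries.coeff_zero_eq_constantCoeff_apply]
      rw [h5]
      ring
    rw [Finset.sum_congr rfl fun r _ => h2 r]
    simp only [pt, aeval_X, Sum.elim_inr, Fin.val_zero, PowerSeries.coeff_zero_eq_constantCoeff_apply]
    rw [← Finset.mul_sum, h1, Finset.sum_range]
    ring

end HomAux

theorem hom (n k : ℕ) (i : Fin (n + 2)) (c : ℕ) (P : JR n k) (hP : Dg c P) :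
    ∃ Q : JR n k, ∀ (R : Type) [CommRing R] [Algebra ℂ R] (a : (Fin (n + 2) →₀ ℕ) → R)
      (y u : Fin (n + 2) → PowerSeries R), u i = 1 → (∀ j, u j * y i = y j) →
      pt a y Q = PowerSeries.constantCoeff (y i) ^ c * pt a u P := by
  have h : ∀ v : Vr n k, ∃ W : JR n k, ∀ (R : Type) [CommRing R] [Algebra ℂ R]
      (a : (Fin (n + 2) →₀ ℕ) → R) (y u : Fin (n + 2) → PowerSeries R), (∀ j, u j * y i = y j) →
      pt a y W = PowerSeries.constantCoeff (y i) ^ wv n k v * pt a u (X v) := by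
    rintro (α | ⟨j, s⟩)
    · refine ⟨X (Sum.inl α), fun R _ _ a y u _ => ?_⟩
      simp only [pt, aeval_X, Sum.elim_inl, wv, pow_zero, one_mul]
    · obtain ⟨W, hW⟩ := HomAux.exists_W n k i s (Nat.lt_succ_iff.mp s.2) j
      refine ⟨W, fun R _ _ a y u hu => ?_⟩
      rw [hW R a y u hu]
      simp only [pt, aeval_X, Sum.elim_inr, wv]
  choose W hW using h
  refine ⟨∑ m ∈ P.support, C (coeff m P) * (X (Sum.inr (i, 0)) ^ (c - Finsupp.weight (wv n k) m) *
    m.prod fun v e => W v ^ e), ?_⟩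
  intro R _ _ a y u _ hu
  conv_rhs => rw [P.as_sum, map_sum, Finset.mul_sum]
  rw [map_sum]
  refine Finset.sum_congr rfl fun m hm => ?_
  have h1 : Finsupp.weight (wv n k) m ≤ c := hP m (mem_support_iff.mp hm)
  rw [map_mul, map_mul, map_pow]
  have h2 : pt a y (X (Sum.inr (i, 0)) : JR n k) = PowerSeries.constantCoeff (y i) := by
    simp only [pt, aeval_X, Sum.elim_inr, Fin.val_zero, PowerSeries.coeff_zero_eq_constantCoeff_apply]
  have h3 : pt a y (m.prod fun v e => W v ^ e) =
      PowerSeries.constantCoeff (y i) ^ Finsupp.weight (wv n k) m * m.prod fun v e => pt a u (X v) ^ e := by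
    rw [Finsupp.weight_apply, Finsupp.prod, Finsupp.prod, Finsupp.sum, map_prod, ← Finset.prod_pow_eq_pow_sum,
      ← Finset.prod_mul_distrib]
    refine Finset.prod_congr rfl fun v _ => ?_
    rw [map_pow, hW v R a y u hu, mul_pow, ← pow_mul, smul_eq_mul, mul_comm (wv n k v)]
  have h4 : pt a u (monomial m (coeff m P)) = algebraMap ℂ R (coeff m P) * m.prod fun v e => pt a u (X v) ^ e := by
    rw [pt, aeval_monomial]
    simp only [aeval_X]
  have h5 : pt a y (C (coeff m P) : JR n k) = algebraMap ℂ R (coeff m P) := by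
    rw [pt, aeval_C]
  rw [h2, h3, h4, h5]
  conv_rhs => rw [← Nat.sub_add_cancel h1, pow_add]
  ring

end Pool.Agent.H57.UGB
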