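import Pool.Agent.H73.UG.YbDefs

/-!
# `ψ ∘ σ` maps the powers of the ideal of minors into the span of the minors in the variables `Z`
-/

set_option autoImplicit false

open MvPolynomial

namespace Pool.Agent.H47.UG

namespace YbPsip

/-- Expansion of a determinant whose entries are sums. -/
theorem det_sum {R ι : Type} [CommRing R] [Fintype ι] [DecidableEq ι] {n : ℕ} (a : Fin n → ι → R)
    (x : Fin n → ι → R) :
    Matrix.det (Matrix.of fun l t : Fin n => ∑ q, a l q * x t q) =
      ∑ f : Fin n → ι, (∏ l, a l (f l)) * Matrix.det (Matrix.of fun l t : Fin n => x t (f l)) := by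
  classical
  have h1 := (Matrix.detRowAlternating (R := R) (n := Fin n)).toMultilinearMap.map_sum
    (fun (l : Fin n) (q : ι) => (fun t : Fin n => a l q * x t q))
  have h0 : (fun l : Fin n => ∑ q : ι, (fun t : Fin n => a l q * x t q)) =
      (Matrix.of fun l t : Fin n => ∑ q, a l q * x t q : Matrix (Fin n) (Fin n) R) := by
    funext l t
    rw [Finset.sum_apply]
    rfl
  rw [h0] at h1
  refine Eq.trans h1 (Finset.sum_congr rfl fun f _ => ?_)
  have h2 := (Matrix.detRowAlternating (R := R) (n := Fin n)).toMultilinearMap.map_smul_univ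
    (fun l => a l (f l)) (fun l => (fun t : Fin n => x t (f l)))
  exact h2

/-- A `K`-algebra homomorphism which is linear on the variables maps `IP` into the span of `IZ`. -/
theorem map_IP {K L : Type} [Field K] [Field L] [Algebra K L] {n k p m q : ℕ}
    (φ : MvPolynomial (ℕ × Fin n) K →ₐ[K] MvPolynomial (ZI n) L) (a : Fin n → Fin (n + 2) × Fin (n + 2) → L)
    (hφ : ∀ s l, φ (X (s, l)) = ∑ pq, C (a l pq) * X (s, pq)) (g : MvPolynomial (ℕ × Fin n) K)
    (hg : g ∈ IP K n k p m q) : φ g ∈ BJ (⊤ : Submodule K L) (IZ K n k p m q) := by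
  classical
  refine Submodule.span_induction (p := fun g _ => φ g ∈ BJ (⊤ : Submodule K L) (IZ K n k p m q)) ?_ ?_ ?_ ?_ hg
  · rintro v ⟨c, q', s, l, h1, h2, rfl⟩
    have hdet : ∀ r, φ (Matrix.det (Matrix.of fun l t : Fin n =>
        (X ((c r t : ℕ), l) : MvPolynomial (ℕ × Fin n) K))) =
        ∑ f : Fin n → Fin (n + 2) × Fin (n + 2), (∏ l, C (a l (f l))) *
          Matrix.det (Matrix.of fun l t : Fin n => (X ((c r t : ℕ), f l) : MvPolynomial (ZI n) L)) := by
      intro r
      rw [← det_sum (fun l q => C (a l q)) (fun t q => (X ((c r t : ℕ), q) : MvPolynomial (ZI n) L))]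
      rw [AlgHom.map_det]
      congr 1
      ext1 l t
      simp only [AlgHom.mapMatrix_apply, Matrix.map_apply, Matrix.of_apply]
      exact hφ _ _
    rw [map_mul, map_prod, map_prod]
    simp only [hdet, hφ]
    rw [Finset.prod_univ_sum, Finset.prod_univ_sum, Finset.sum_mul]
    simp only [Finset.mul_sum]
    refine Submodule.sum_mem _ fun f _ => Submodule.sum_mem _ fun l' _ => Submodule.subset_span ?_
    refine ⟨(∏ r, ∏ l, a l (f r l)) * ∏ r, a (l r) (l' r), trivial,
      (∏ r, Matrix.det (Matrix.of fun l t : Fin n => (X ((c r t : ℕ), f r l) : MvPolynomial (ZI n) K))) *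
        ∏ r, X ((s r : ℕ), l' r), Submodule.subset_span ⟨c, f, q', s, l', h1, h2, rfl⟩, ?_⟩
    rw [map_mul (map (algebraMap K L)), map_prod, map_prod]
    have hm : ∀ r, map (algebraMap K L) (Matrix.det (Matrix.of fun l t : Fin n =>
        (X ((c r t : ℕ), f r l) : MvPolynomial (ZI n) K))) =
        Matrix.det (Matrix.of fun l t : Fin n => (X ((c r t : ℕ), f r l) : MvPolynomial (ZI n) L)) := by
      intro r
      rw [RingHom.map_det]
      congr 1
      ext1 l t
      simp only [RingHom.mapMatrix_apply, Matrix.map_apply, Matrix.of_apply, map_X]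
    simp only [hm, map_X]
    rw [map_mul C, map_prod C, map_prod C]
    simp only [map_prod C, Finset.prod_mul_distrib]
    ring
  · rw [map_zero]
    exact Submodule.zero_mem _
  · intro x y _ _ hx hy
    rw [map_add]
    exact Submodule.add_mem _ hx hy
  · intro r x _ hx
    rw [map_smul]
    exact Submodule.smul_mem _ _ hx

end YbPsip

namespace FF

variable {K : Type} [Field K] [CharZero K] {n d : ℕ} {F : HP K n} (T : FF d F) (hF : Nice d F)

include hF

/-- YB-PSIP -/
theorem ψσ_IP (i : Fin (n + 2)) (j : Fin (n + 1)) {k p m q : ℕ} (g : MvPolynomial (ℕ × Fin n) K)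
    (hg : g ∈ IP K n k p m q) :
    T.ψ (T.σ i j (map (algebraMap K T.L) g)) ∈ BJ (⊤ : Submodule K T.L) (IZ K n k p m q) := by
  have _ := hF
  classical
  let φ : MvPolynomial (ℕ × Fin n) K →ₐ[K] MvPolynomial (ZI n) T.L :=
    ((T.ψ.restrictScalars K).comp ((T.σ i j).restrictScalars K)).comp (mapAlgHom (Algebra.ofId K T.L))
  refine YbPsip.map_IP φ (fun l pq => ∑ r : Fin n, T.Dt pq r.succ.castSucc * T.par r (T.y i j l)) ?_ g hg
  intro s l
  have h0 : φ (X (s, l)) = T.ψ (T.σ i j (map (algebraMap K T.L) (X (s, l)))) := rfl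
  rw [h0, map_X, σ, aeval_X]
  simp only [δ, map_sum, map_mul, algHom_C]
  have h1 : ∀ r : Fin n, T.ψ (X (s, r)) = ∑ pq, C (T.Dt pq r.succ.castSucc) * X (s, pq) := by
    intro r
    rw [ψ, aeval_X]
  simp only [h1, Finset.mul_sum]
  rw [Finset.sum_comm]
  refine Finset.sum_congr rfl fun pq _ => ?_
  rw [Finset.sum_mul]
  refine Finset.sum_congr rfl fun r _ => ?_
  rw [MvPolynomial.algebraMap_eq]
  ring

end FF

end Pool.Agent.H47.UG
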